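import Pool.Agent.Helper10.SLO.Key
import Pool.Agent.Helper10.SLS.Asm

/-!
# Project SLO: the key theorem for generic parameters
-/

universe u v

namespace Pool.Agent.SLO

open Polynomial Pool.Agent.Helper37.UL Pool.Agent.Helper91.Sect Pool.Agent.HP UL RR Pool.Agent.SLS

/-- **The key theorem for generic parameters**, finite extensions of `F(T)`. -/
theorem key_any {F k : Type u} [Field F] [CharZero F] [Field k] [Algebra F k]
    (hF : ∃ S : Finset F, Subfield.closure (S : Set F) = ⊤) {κ : Subfield (AlgebraicClosure k)}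
    (hκ : ∀ c : AlgebraicClosure k, c ∈ κ ↔ IsAlgebraic F c) {d m : ℕ} {w : Fin (m + 1) → k}
    (hw0 : w 0 ≠ 0) {o : Fin (m + 1)} (ho : (o : ℕ) = 1) (hT : Transcendental F (w o / w 0))
    [FiniteDimensional (IntermediateField.adjoin F {w o / w 0}) k]
    (hd : 3 ≤ d) {p ν : ℕ} (hp : 2 ≤ p) (hν1 : 1 ≤ ν) (hν : ν < p) (hpd : p ∣ d)
    {J : Type u} {U : Ultrafilter J} {S : Type v} [Field S] {π : (J → AlgebraicClosure k) →+* S}
    (h : UP U π) {v₀ : J → Fin (d + 1) × Fin (m + 1) → F}
    (hUF : ∀ Ψ : MvPolynomial (Fin (d + 1) × Fin (m + 1)) F, Ψ ≠ 0 →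
      ∀ᶠ j in (U : Filter J), MvPolynomial.eval (v₀ j) Ψ ≠ 0)
    (hWR : ∀ n : ℕ, ∀ y ∈ h.gsub (algebraMap F (AlgebraicClosure k)).fieldRange,
      IsAlgebraic (Lg (C := AlgebraicClosure k) π (fun j => subV o (n : F) (v₀ j))) y →
      ∀ A : Subfield S, κ.map (UP.cst π) ≤ A → (∀ x : S, IsAlgebraic A x → x ∈ A) →
      (∀ (i : Fin (d + 1)) (e : Fin (m + 1)), e ≠ 0 →
        xg π (fun j i => algebraMap F (AlgebraicClosure k) (subV o (n : F) (v₀ j) i)) (i, e) ∈ A) →
      y ∈ Subfield.closure ((A : Set S) ∪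
        Set.range (xg π (fun j i => algebraMap F (AlgebraicClosure k) (subV o (n : F) (v₀ j) i)))))
    (hP : ∀ j, (curveW w (v₀ j)).natDegree = d ∧ (curveW w (v₀ j)).Separable ∧
      SectionD p ν (curveW w (v₀ j))) : False := by
  classical
  have hm : 1 ≤ m := by have := o.2; omega
  have ho0 : o ≠ 0 := by
    intro h
    rw [h] at ho
    simp at ho
  let C : Type u := AlgebraicClosure k
  set T : k := w o / w 0 with hTdef
  obtain ⟨n, q, htop, hq, hs⟩ := exists_splitW (C := C) hT hκ w hw0
  let c : F := n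
  have hcn : algebraMap F k c = (n : k) := map_natCast _ _
  set T₁ : k := T - n with hT₁
  have hTT₁ : T = T₁ + algebraMap F k c := by rw [hT₁, hcn, sub_add_cancel]
  have hadj : IntermediateField.adjoin F {T₁} = IntermediateField.adjoin F {T} := by
    apply le_antisymm
    · rw [IntermediateField.adjoin_simple_le_iff, hT₁, ← hcn]
      exact sub_mem (IntermediateField.mem_adjoin_simple_self F T)
        ((IntermediateField.adjoin F {T}).algebraMap_mem c)
    · rw [IntermediateField.adjoin_simple_le_iff, hTT₁]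
      exact add_mem (IntermediateField.mem_adjoin_simple_self F T₁)
        ((IntermediateField.adjoin F {T₁}).algebraMap_mem c)
  have hT₁t : Transcendental F T₁ := by
    intro h
    apply hT
    rw [hTT₁]
    exact h.add (isAlgebraic_algebraMap c)
  have htop₁ : IntermediateField.adjoin F {T₁, q} = ⊤ := by
    rw [eq_top_iff, ← htop, IntermediateField.adjoin_le_iff]
    rintro x (hx | hx)
    · rw [hx, SetLike.mem_coe, hTT₁]
      exact add_mem (IntermediateField.subset_adjoin F _ (by simp))
        ((IntermediateField.adjoin F {T₁, q}).algebraMap_mem c)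
    · rw [Set.mem_singleton_iff.mp hx]
      exact IntermediateField.subset_adjoin F _ (by simp)
  have hq₁ : IsAlgebraic (IntermediateField.adjoin F {T₁}) q := by
    rw [hadj]
    exact hq
  -- the substitution
  let w₁ : Fin (m + 1) → k := fun e => if e = o then w e - algebraMap F k c * w 0 else w e
  have hw₁0 : w₁ 0 = w 0 := by
    simp only [w₁]
    rw [if_neg (Ne.symm ho0)]
  have hs₁ : TH.SplitW κ (algebraMap k C T₁) (algebraMap k C q)
      (fun l => algebraMap k C (w₁ l)) := by
    have h1 := hs.subst ho0 (c := algebraMap k C (algebraMap F k c)) (by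
      rw [hκ]
      have h2 : algebraMap k C (algebraMap F k c) = algebraMap F C c :=
        (IsScalarTower.algebraMap_apply F k C c).symm
      rw [h2]
      exact isAlgebraic_algebraMap c)
    have h3 : (fun e => if e = o then algebraMap k C (w e) -
        algebraMap k C (algebraMap F k c) * algebraMap k C (w 0) else algebraMap k C (w e)) =
        fun l => algebraMap k C (w₁ l) := by
      funext e
      simp only [w₁]
      split_ifs
      · rw [map_sub, map_mul]
      · rfl
    rw [h3] at h1
    exact h1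
  have hw₁1 : ∀ e : Fin (m + 1), (e : ℕ) = 1 → w₁ e = T₁ * w₁ 0 := by
    intro e he
    have heo : e = o := Fin.ext (by rw [he, ho])
    rw [hw₁0]
    simp only [w₁]
    rw [if_pos heo, heo]
    have h1 : w o = T * w 0 := (div_mul_cancel₀ _ hw0).symm
    rw [h1, hTT₁]
    ring
  refine key_generic hF hT₁t hq₁ htop₁ hκ hs₁ (by rw [hw₁0]; exact hw0) hw₁1 hd hm
    hp hν1 (Nat.not_dvd_of_pos_of_lt hν1 hν) hpd h (v₀ := fun j => subV o c (v₀ j)) ?_ (hWR n) ?_
  · intro Ψ hΨ
    have h1 : subE d m o ho0 c Ψ ≠ 0 := fun h0 =>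
      hΨ ((map_eq_zero_iff _ (subE d m o ho0 c).injective).1 h0)
    filter_upwards [hUF _ h1] with j hj
    rw [← eval_subE o ho0]
    exact hj
  · intro j
    rw [curveW_subst w ho0 c (v₀ j)]
    exact hP j

end Pool.Agent.SLO
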