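import Pool.Agent.Helper10.SLO.Red
import Pool.Agent.Helper10.SLS.Fin

/-!
# Project SLO, the final theorem: the exceptional curves are in a hypersurface
-/

universe u v w

namespace Pool.Agent.SLO

open Polynomial Pool.Agent.Helper37.UL Pool.Agent.Helper91.Sect Pool.Agent.HP UL RR
  Pool.Agent.SLS Pool.Agent.RRW

/-- The polynomials which are not separable of degree `d` are in a hypersurface. -/
theorem closed_not_separable {F k : Type u} [Field F] [CharZero F] [Field k] [Algebra F k] {d m : ℕ}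
    {w : Fin (m + 1) → k} (hw : w 0 ≠ 0) (hd : 3 ≤ d) :
    ∃ Ψ : MvPolynomial (Fin (d + 1) × Fin (m + 1)) F, Ψ ≠ 0 ∧
      ∀ a : Fin (d + 1) × Fin (m + 1) → F, ¬ ((curveW w a).natDegree = d ∧
        (curveW w a).Separable) → MvPolynomial.eval a Ψ = 0 := by
  classical
  have hk0 : CharZero k := charZero_of_injective_algebraMap (algebraMap F k).injective
  obtain ⟨G', hG', hG⟩ := exists_eval_of_evk (F := F) (RR_genc_ne_zero (F := F) (d := d) hw (by omega))
  refine ⟨G', hG', fun a ha => hG a ?_⟩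
  by_contra hne
  apply ha
  rw [← UL.RR_map, map_spec_genc, ← curveW_eq_spec] at hne
  exact (UL.RR_ne_zero_iff (by omega) (by rw [curveW_eq_spec]; exact natDegree_spec _)).1 hne

/-- **No sections outside a hypersurface**, normalised. -/
theorem closed_norm {F k : Type u} [Field F] [CharZero F] [Field k] [Algebra F k]
    (hF : ∃ S : Finset F, Subfield.closure (S : Set F) = ⊤)
    (hk : ∃ S : Finset k, Subfield.closure (S : Set k) = ⊤) {d m : ℕ} {w : Fin (m + 3) → k}
    (hw0 : w 0 ≠ 0) (hT : AlgebraicIndependent F ![w 1 / w 0, w (Fin.last _) / w 0])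
    (hd : 3 ≤ d) :
    ∃ Ψ : MvPolynomial (Fin (d + 1) × Fin (m + 3)) F, Ψ ≠ 0 ∧
      ∀ a : Fin (d + 1) × Fin (m + 3) → F, MvPolynomial.eval a Ψ ≠ 0 →
        HasNoSectionsS d (curveW w a) := by
  classical
  let I : Finset (ℕ × ℕ) := (d.divisors ×ˢ Finset.range d).filter
    fun c => 2 ≤ c.1 ∧ 1 ≤ c.2 ∧ c.2 < c.1
  have hI : ∀ c ∈ I, c.1 ∣ d ∧ 2 ≤ c.1 ∧ 1 ≤ c.2 ∧ c.2 < c.1 := by
    intro c hc
    rw [Finset.mem_filter, Finset.mem_product] at hc
    exact ⟨Nat.dvd_of_mem_divisors hc.1.1, hc.2⟩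
  obtain ⟨Ψ₀, hΨ₀, h₀⟩ := closed_not_separable (F := F) (k := k) (d := d) (w := w) hw0 hd
  have h1 : ∀ c ∈ I, ∃ Ψ : MvPolynomial (Fin (d + 1) × Fin (m + 3)) F, Ψ ≠ 0 ∧
      ∀ a : Fin (d + 1) × Fin (m + 3) → F, (curveW w a).natDegree = d ∧ (curveW w a).Separable ∧
        SectionD c.1 c.2 (curveW w a) → MvPolynomial.eval a Ψ = 0 := fun c hc =>
    closed_key hF hk hw0 hT hd (hI c hc).2.1 (hI c hc).2.2.1 (hI c hc).2.2.2 (hI c hc).1
  choose! Ψ hΨ h2 using h1
  refine ⟨Ψ₀ * ∏ c ∈ I, Ψ c, mul_ne_zero hΨ₀ (Finset.prod_ne_zero_iff.2 hΨ), fun a ha => ?_⟩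
  rw [map_mul, map_prod, mul_ne_zero_iff, Finset.prod_ne_zero_iff] at ha
  have h3 : (curveW w a).natDegree = d ∧ (curveW w a).Separable := by
    by_contra hne
    exact ha.1 (h₀ a hne)
  refine hasNoSectionsS_of (by omega) h3.1 h3.2 fun p ν hp hpd hν1 hν hs => ?_
  have hmem : (p, ν) ∈ I := by
    rw [Finset.mem_filter, Finset.mem_product]
    refine ⟨⟨Nat.mem_divisors.2 ⟨hpd, by omega⟩, Finset.mem_range.2 ?_⟩, hp, hν1, hν⟩
    exact lt_of_lt_of_le hν (Nat.le_of_dvd (by omega) hpd)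
  exact ha.2 _ hmem (h2 _ hmem a ⟨h3.1, h3.2, hs⟩)

/-- a permutation with given values at `0`, `1` and the last index -/
theorem exists_perm {m : ℕ} {i j l : Fin (m + 3)} (hil : i ≠ l) (hjl : j ≠ l) (hij : i ≠ j) :
    ∃ g : Fin (m + 3) ≃ Fin (m + 3), g 0 = l ∧ g 1 = i ∧ g (Fin.last _) = j := by
  classical
  have h01 : (0 : Fin (m + 3)) ≠ 1 := by
    intro h
    have := congrArg Fin.val h
    simp at this
  have h0l : (0 : Fin (m + 3)) ≠ Fin.last _ := by
    intro h
    have := congrArg Fin.val h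
    simp at this
  have h1l : (1 : Fin (m + 3)) ≠ Fin.last _ := by
    intro h
    have := congrArg Fin.val h
    simp at this
  let i' : Fin (m + 3) := Equiv.swap 0 l i
  have hi' : i' ≠ 0 := by
    intro h
    have h1 : Equiv.swap 0 l i' = i := Equiv.swap_apply_self 0 l i
    rw [h, Equiv.swap_apply_left] at h1
    exact hil h1.symm
  let g₂ : Fin (m + 3) ≃ Fin (m + 3) := (Equiv.swap 1 i').trans (Equiv.swap 0 l)
  have hg0 : g₂ 0 = l := by
    change Equiv.swap 0 l (Equiv.swap 1 i' 0) = l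
    rw [Equiv.swap_apply_of_ne_of_ne h01 (Ne.symm hi'), Equiv.swap_apply_left]
  have hg1 : g₂ 1 = i := by
    change Equiv.swap 0 l (Equiv.swap 1 i' 1) = i
    rw [Equiv.swap_apply_left]
    exact Equiv.swap_apply_self 0 l i
  let j' : Fin (m + 3) := g₂.symm j
  have hj0 : (0 : Fin (m + 3)) ≠ j' := by
    intro h
    apply hjl
    rw [← hg0, h, Equiv.apply_symm_apply]
  have hj1 : (1 : Fin (m + 3)) ≠ j' := by
    intro h
    apply hij
    rw [← hg1, h, Equiv.apply_symm_apply]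
  refine ⟨(Equiv.swap (Fin.last _) j').trans g₂, ?_, ?_, ?_⟩
  · change g₂ (Equiv.swap (Fin.last _) j' 0) = l
    rw [Equiv.swap_apply_of_ne_of_ne h0l hj0, hg0]
  · change g₂ (Equiv.swap (Fin.last _) j' 1) = i
    rw [Equiv.swap_apply_of_ne_of_ne h1l hj1, hg1]
  · change g₂ (Equiv.swap (Fin.last _) j' (Fin.last _)) = j
    rw [Equiv.swap_apply_left]
    exact Equiv.apply_symm_apply g₂ j

/-- **No sections outside a hypersurface.** -/
theorem closed_any {F k : Type u} [Field F] [CharZero F] [Field k] [Algebra F k]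
    (hF : ∃ S : Finset F, Subfield.closure (S : Set F) = ⊤)
    (hk : ∃ S : Finset k, Subfield.closure (S : Set k) = ⊤) {d m : ℕ} {w : Fin (m + 1) → k}
    {i j l : Fin (m + 1)} (hT : AlgebraicIndependent F ![w i / w l, w j / w l]) (hd : 3 ≤ d) :
    ∃ Ψ : MvPolynomial (Fin (d + 1) × Fin (m + 1)) F, Ψ ≠ 0 ∧
      ∀ a : Fin (d + 1) × Fin (m + 1) → F, MvPolynomial.eval a Ψ ≠ 0 →
        HasNoSectionsS d (curveW w a) := by
  classical
  have hT0 : Transcendental F (w i / w l) := hT.transcendental 0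
  have hT1 : Transcendental F (w j / w l) := hT.transcendental 1
  have hl : w l ≠ 0 := by
    intro h0
    rw [h0, div_zero] at hT0
    exact hT0 isAlgebraic_zero
  have hil : i ≠ l := by
    rintro rfl
    rw [div_self hl] at hT0
    exact hT0 isAlgebraic_one
  have hjl : j ≠ l := by
    rintro rfl
    rw [div_self hl] at hT1
    exact hT1 isAlgebraic_one
  have hij : i ≠ j := by
    rintro rfl
    have h1 := hT.injective (a₁ := 0) (a₂ := 1) rfl
    simp at h1
  obtain ⟨m', rfl⟩ : ∃ m', m = m' + 2 := by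
    refine ⟨m - 2, ?_⟩
    have h1 := i.2
    have h2 := j.2
    have h3 := l.2
    have h4 : (i : ℕ) ≠ l := fun h => hil (Fin.ext h)
    have h5 : (j : ℕ) ≠ l := fun h => hjl (Fin.ext h)
    have h6 : (i : ℕ) ≠ j := fun h => hij (Fin.ext h)
    omega
  obtain ⟨g, hg0, hg1, hgl⟩ := exists_perm hil hjl hij
  obtain ⟨Ψ, hΨ, h1⟩ := closed_norm hF hk (w := w ∘ g) (d := d) (by
    change w (g 0) ≠ 0
    rw [hg0]; exact hl) (by
    change AlgebraicIndependent F ![w (g 1) / w (g 0), w (g (Fin.last _)) / w (g 0)]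
    rw [hg0, hg1, hgl]; exact hT) hd
  refine ⟨MvPolynomial.rename (Equiv.prodCongr (Equiv.refl (Fin (d + 1))) g) Ψ, fun h0 => hΨ ?_,
    fun a ha => ?_⟩
  · exact (map_eq_zero_iff _ (MvPolynomial.rename_injective _ (Equiv.injective _))).1 h0
  · rw [MvPolynomial.eval_rename] at ha
    have h2 := h1 _ ha
    rw [curveW_reindex] at h2
    exact h2

end Pool.Agent.SLO
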