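import Pool.Agent.Helper10.RR.SubstW
import Pool.Agent.Helper10.UL.FinalTheta
import Pool.Agent.Helper10.SLS.Desc
import Pool.Agent.Helper10.SLS.Data
import Pool.Agent.Helper10.SLO.NF

/-!
# Project SLO: the key theorem for generic parameters, sections over extensions of degree `ν` modulo `p`
-/

universe u v

namespace Pool.Agent.SLO

open Polynomial Pool.Agent.Helper37.UL Pool.Agent.Helper91.Sect Pool.Agent.HP UL RR Pool.Agent.SLS

/-- **The key theorem for generic parameters.** -/
theorem key_generic {F k C : Type u} [Field F] [CharZero F] [Field k] [Algebra F k] [Field C]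
    [Algebra k C] [IsAlgClosure k C] [Algebra F C] [IsScalarTower F k C]
    (hF : ∃ S : Finset F, Subfield.closure (S : Set F) = ⊤) {T q : k} (hT : Transcendental F T)
    (hq : IsAlgebraic (IntermediateField.adjoin F {T}) q)
    (htop : IntermediateField.adjoin F {T, q} = ⊤)
    {κ : Subfield C} (hκ : ∀ c : C, c ∈ κ ↔ IsAlgebraic F c) {d m : ℕ} {w : Fin (m + 1) → k}
    (hs : TH.SplitW κ (algebraMap k C T) (algebraMap k C q) (fun l => algebraMap k C (w l)))
    (hw0 : w 0 ≠ 0) (hw1 : ∀ e : Fin (m + 1), (e : ℕ) = 1 → w e = T * w 0)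
    (hd : 3 ≤ d) (hm : 1 ≤ m) {p ν : ℕ} (hp : 2 ≤ p) (hν1 : 1 ≤ ν) (hν : ¬ p ∣ ν) (hpd : p ∣ d)
    {J : Type u} {U : Ultrafilter J} {S : Type v} [Field S] {π : (J → C) →+* S} (h : UP U π)
    {v₀ : J → Fin (d + 1) × Fin (m + 1) → F}
    (hUF : ∀ Ψ : MvPolynomial (Fin (d + 1) × Fin (m + 1)) F, Ψ ≠ 0 →
      ∀ᶠ j in (U : Filter J), MvPolynomial.eval (v₀ j) Ψ ≠ 0)
    (hWR : ∀ y ∈ h.gsub (algebraMap F C).fieldRange, IsAlgebraic (Lg π v₀) y →
      ∀ A : Subfield S, κ.map (UP.cst π) ≤ A → (∀ x : S, IsAlgebraic A x → x ∈ A) →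
      (∀ (i : Fin (d + 1)) (e : Fin (m + 1)), e ≠ 0 →
        xg π (fun j i => algebraMap F C (v₀ j i)) (i, e) ∈ A) →
      y ∈ Subfield.closure ((A : Set S) ∪ Set.range (xg π (fun j i => algebraMap F C (v₀ j i)))))
    (hP : ∀ j, (curveW w (v₀ j)).natDegree = d ∧ (curveW w (v₀ j)).Separable ∧
      SectionD p ν (curveW w (v₀ j))) : False := by
  classical
  have hk0 : CharZero k := charZero_of_injective_algebraMap (algebraMap F k).injective
  have hCcl : IsAlgClosed C := IsAlgClosure.isAlgClosed k
  have hp0 : 0 < p := by omega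
  have hfin : FiniteDimensional (IntermediateField.adjoin F {T}) k := by
    have h1 : IntermediateField.adjoin (IntermediateField.adjoin F {T}) {q} = ⊤ := by
      have h2 := IntermediateField.adjoin_adjoin_left F ({T} : Set k) {q}
      apply IntermediateField.restrictScalars_injective F
      rw [h2, IntermediateField.restrictScalars_top, ← htop]
      congr 1
    have h2 := IntermediateField.adjoin.finiteDimensional hq.isIntegral
    rw [h1] at h2
    exact Module.Finite.equiv (IntermediateField.topEquiv
      (F := IntermediateField.adjoin F {T}) (E := k)).toLinearEquiv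
  obtain ⟨D, B, M, Ψ, Δ, -, hΨ, hB⟩ :=
    exists_data hT hq htop κ hκ hw0 d p hp0 hd
  -- all the parameters are good, without loss of generality
  obtain ⟨j₀, hj₀⟩ := (hUF Ψ hΨ).exists
  let vv : J → Fin (d + 1) × Fin (m + 1) → F := fun j =>
    if MvPolynomial.eval (v₀ j) Ψ ≠ 0 then v₀ j else v₀ j₀
  have hvv : ∀ j, MvPolynomial.eval (vv j) Ψ ≠ 0 := by
    intro j
    simp only [vv]
    split_ifs with h1
    · exact h1
    · exact hj₀
  have hPv : ∀ j, (curveW w (vv j)).natDegree = d ∧ (curveW w (vv j)).Separable ∧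
      SectionD p ν (curveW w (vv j)) := by
    intro j
    simp only [vv]
    split_ifs with h1
    · exact hP j
    · exact hP j₀
  have hev : ∀ᶠ j in (U : Filter J), vv j = v₀ j := by
    filter_upwards [hUF Ψ hΨ] with j hj
    simp only [vv]
    rw [if_pos hj]
  have hxg : xg π (fun j i => algebraMap F C (vv j i)) =
      xg π (fun j i => algebraMap F C (v₀ j i)) := by
    funext i
    refine (h.eq_iff _ _).mpr ?_
    filter_upwards [hev] with j hj
    rw [hj]
  have hLg : Lg (C := C) π vv = Lg (C := C) π v₀ := by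
    unfold Lg
    rw [hxg]
  have hUF' : ∀ Ψ : MvPolynomial (Fin (d + 1) × Fin (m + 1)) F, Ψ ≠ 0 →
      ∀ᶠ j in (U : Filter J), MvPolynomial.eval (vv j) Ψ ≠ 0 := by
    intro Ψ' hΨ'
    filter_upwards [hUF Ψ' hΨ', hev] with j h1 h2
    rw [h2]
    exact h1
  have hC0 : CharZero C := charZero_of_injective_algebraMap (algebraMap k C).injective
  -- level structures
  have hA : ∀ j : J, ∃ (θ : Fin d → C) (z : Fin d → Fin d → C) (α : C),
      Lev (algebraMap k C).fieldRange p
        (fun i : Fin (d + 1) => algebraMap k C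
          (∑ l : Fin (m + 1), algebraMap F k (vv j (Fin.last d, l)) * w l) ^ (ν - 1) *
          algebraMap k C (∑ l : Fin (m + 1), algebraMap F k (vv j (i, l)) * w l)) θ z α ∧
      ∀ V : ValuationSubring C, V ≠ ⊤ → (∀ c : F, algebraMap k C (algebraMap F k c) ∈ V) →
        GoodAt V (fun i : Fin (d + 1) => algebraMap k C
          (∑ l : Fin (m + 1), algebraMap F k (vv j (i, l)) * w l)) θ →
        ∀ σ : C ≃+* C, Inert (algebraMap k C).fieldRange V σ →
          ∀ i j, i ≠ j → σ (z i j) = z i j := by
    intro j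
    obtain ⟨h1, h2, hs⟩ := hPv j
    generalize vv j = a at h1 h2 hs ⊢
    obtain ⟨θ, z, α, h3, h4⟩ := exists_lev hF T hfin hp hν1 hpd hd h2 h1 hs C
    have h5 : (curveW w a).coeff d =
        ∑ l : Fin (m + 1), algebraMap F k (a (Fin.last d, l)) * w l := coeff_curveW w a (Fin.last d)
    simp only [coeff_curveW, h5] at h3 h4
    exact ⟨θ, z, α, h3, h4⟩
  choose θ z α hlev hin using hA
  have hTκ : AlgebraicIndependent κ ![algebraMap k C T] := by
    rw [algebraicIndependent_unique_type_iff]
    exact Pool.Agent.TD.kappa_transc_one hκ hT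
  have hle : (algebraMap k C).fieldRange ≤
      Subfield.closure ((gen (algebraMap F C).fieldRange ![algebraMap k C T] : Set C) ∪
        {algebraMap k C q}) := by
    rintro _ ⟨x, rfl⟩
    have h1 : (IntermediateField.adjoin F {T, q} : IntermediateField F k).toSubfield ≤
        (Subfield.closure ((gen (algebraMap F C).fieldRange ![algebraMap k C T] : Set C) ∪
        {algebraMap k C q})).comap (algebraMap k C) := by
      rw [IntermediateField.adjoin_toSubfield, Subfield.closure_le]
      rintro x (⟨y, rfl⟩ | hx)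
      · exact Subfield.subset_closure (Or.inl (le_gen ⟨y, IsScalarTower.algebraMap_apply F k C y⟩))
      · rcases hx with rfl | hx
        · exact Subfield.subset_closure (Or.inl (gen_mem (τ := ![algebraMap k C x]) 0))
        · rw [Set.mem_singleton_iff.mp hx]
          exact Subfield.subset_closure (Or.inr rfl)
    rw [htop] at h1
    exact h1 (Subfield.mem_top x)
  have hcl : Subfield.closure ((κ : Set C) ∪ {algebraMap k C T}) =
      gen κ ![algebraMap k C T] := by
    unfold gen
    rw [Matrix.range_cons, Matrix.range_empty, Set.union_empty]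
  have hmap : ∀ c : F, algebraMap k C (algebraMap F k c) = algebraMap F C c := fun c =>
    (IsScalarTower.algebraMap_apply F k C c).symm
  have hg0 : gen (algebraMap F C).fieldRange (![] : Fin 0 → C) = (algebraMap F C).fieldRange :=
    gen_zero
  -- `C` is algebraic over `F(T)`
  have halgC : ∀ x : C, IsAlgebraic (gen (algebraMap F C).fieldRange ![algebraMap k C T]) x := by
    intro x
    have hLg : (IntermediateField.adjoin F {T}).toSubfield.map (algebraMap k C) ≤
        gen (algebraMap F C).fieldRange ![algebraMap k C T] := by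
      rw [IntermediateField.adjoin_toSubfield, RingHom.map_field_closure, Subfield.closure_le]
      rintro _ ⟨x, (⟨y, rfl⟩ | hx), rfl⟩
      · exact le_gen ⟨y, IsScalarTower.algebraMap_apply F k C y⟩
      · rw [Set.mem_singleton_iff.mp hx]
        exact gen_mem (τ := ![algebraMap k C T]) 0
    set g := gen (algebraMap F C).fieldRange ![algebraMap k C T] with hg
    have hqg : IsAlgebraic g (algebraMap k C q) := by
      obtain ⟨P, hP0, hP⟩ := hq
      let ψ : IntermediateField.adjoin F {T} →+* g := ((algebraMap k C).comp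
        (algebraMap (IntermediateField.adjoin F {T}) k)).codRestrict g.toSubring
        (fun x => hLg ⟨x, x.2, rfl⟩)
      refine ⟨P.map ψ, (Polynomial.map_ne_zero_iff ψ.injective).2 hP0, ?_⟩
      have h1 := congrArg (algebraMap k C) hP
      rw [map_zero, aeval_def, hom_eval₂] at h1
      rw [aeval_def, eval₂_map, ← h1]
      rfl
    let A : Subfield C := (algebraicClosure g C).toSubfield
    have hA : ∀ y, y ∈ A ↔ IsAlgebraic g y := fun y => mem_algebraicClosure_iff
    have hcA : Subfield.closure ((g : Set C) ∪ {algebraMap k C q}) ≤ A := by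
      rw [Subfield.closure_le, Set.union_subset_iff]
      refine ⟨fun y hy => (hA y).2 (isAlgebraic_algebraMap (⟨y, hy⟩ : g)), ?_⟩
      rintro _ rfl
      exact (hA _).2 hqg
    have h1 : IsAlgebraic k x := (IsAlgClosure.isAlgebraic (R := k) (K := C)).isAlgebraic x
    have h2 : IsAlgebraic (algebraMap k C).fieldRange x := by
      obtain ⟨P, hP0, hP⟩ := h1
      refine ⟨P.map (algebraMap k C).rangeRestrictField, ?_, ?_⟩
      · exact (Polynomial.map_ne_zero_iff (algebraMap k C).rangeRestrictField.injective).2 hP0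
      · rw [← hP, aeval_def, eval₂_map]
        rfl
    have h3 : IsAlgebraic A x := isAlgebraic_mono (hle.trans hcA) h2
    have h4 : IsAlgebraic (algebraicClosure g C) x := h3
    exact (isIntegral_trans (R := g) (A := algebraicClosure g C) _ h4.isIntegral).isAlgebraic
  refine no_family_W (F := F) (C := C) (J := J) (B := B) (D := D) (M := M) (n := 0) h hp0 hν1 hν hd hm
    hUF' (u := ![]) (T := algebraMap k C T) ?_ (κ := κ) (fun x => ?_) hTκ (by
      rw [hLg, hxg]
      exact hWR)
    (q := algebraMap k C q) (w := fun l => algebraMap k C (w l)) hs ?_ (fun l => ?_) (fun x => ?_)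
    (θ := θ) (z := z) (α := α) (fun j => ?_)
    (Δ := fun l => MvPolynomial.map (algebraMap F C) (Δ l)) (fun l s => ?_) (fun j => ?_)
    (fun j i i' hii => ?_)
  · have h1 : AlgebraicIndependent (algebraMap F C).fieldRange ![algebraMap k C T] := by
      have h2 : (algebraMap F C).fieldRange ≤ κ := by
        rintro _ ⟨c, rfl⟩
        exact (hκ _).2 (isAlgebraic_algebraMap c)
      let _ : Algebra (algebraMap F C).fieldRange κ := (Subfield.inclusion h2).toAlgebra
      have : IsScalarTower (algebraMap F C).fieldRange κ C :=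
        IsScalarTower.of_algebraMap_eq fun _ => rfl
      exact hTκ.restrictScalars (Subfield.inclusion h2).injective
    exact h1
  · rw [hκ, hg0]
    exact Pool.Agent.TD.isAlgebraic_range_iff.symm
  · change algebraMap k C (w _) = algebraMap k C T * algebraMap k C (w 0)
    rw [hw1 _ rfl, map_mul]
  · rw [hg0]
    exact hle ⟨_, rfl⟩
  · rw [hg0]
    exact halgC x
  · rw [hg0]
    have h1 := (hlev j).mono hle
    simpa only [map_sum, map_mul, hmap] using h1
  · rw [hg0, MvPolynomial.coeff_map]
    exact ⟨_, rfl⟩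
  · obtain ⟨l, hl⟩ := (hB (vv j) (hvv j)).1
    refine ⟨l, ?_⟩
    have h1 : MvPolynomial.eval (fun x => algebraMap F C (vv j x))
        (MvPolynomial.map (algebraMap F C) (Δ l)) = algebraMap F C (MvPolynomial.eval (vv j) (Δ l)) := by
      rw [MvPolynomial.eval_map, ← MvPolynomial.eval₂_id, MvPolynomial.eval₂_comp_left]
      rfl
    rw [h1]
    exact (_root_.map_ne_zero _).2 hl
  · have hlead : algebraMap k C
        (∑ l : Fin (m + 1), algebraMap F k (vv j (Fin.last d, l)) * w l) ≠ 0 := by
      intro h0
      apply (hlev j).lead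
      rw [h0, mul_zero]
    have hroot : ∀ i, ∑ l : Fin (d + 1),
        algebraMap k C (∑ e, algebraMap F k (vv j (l, e)) * w e) * θ j i ^ (l : ℕ) = 0 := by
      intro i
      have h1 := (hlev j).root i
      simp only [mul_assoc] at h1
      rw [← Finset.mul_sum] at h1
      exact (mul_eq_zero.1 h1).resolve_left (pow_ne_zero _ hlead)
    have h1 := (hB (vv j) (hvv j)).2 (hlev j) hroot (hin j) i i' hii
    rw [hcl] at h1
    have h2 : ∀ l, MvPolynomial.eval (fun x => algebraMap F C (vv j x))
        (MvPolynomial.map (algebraMap F C) (Δ l)) = algebraMap F C (MvPolynomial.eval (vv j) (Δ l)) := by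
      intro l
      rw [MvPolynomial.eval_map, ← MvPolynomial.eval₂_id, MvPolynomial.eval₂_comp_left]
      rfl
    simp only [h2]
    exact h1

end Pool.Agent.SLO
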