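import Pool.Agent.Helper10.SLO.Any
import Pool.Agent.Helper13.OPG.WR

/-!
# Project SLO: the reduction to the key theorem for generic parameters
-/

universe u v w

namespace Pool.Agent.SLO

open Polynomial IntermediateField Pool.Agent.Helper37.UL Pool.Agent.Helper91.Sect Pool.Agent.HP UL RR
  Pool.Agent.SLS Pool.Agent.OPN Pool.Agent.OPG

/-- ultrafilters on a family which is Zariski dense -/
theorem exists_ultra_dense {F : Type u} [Field F] {K : Type v} {J : Type w} (vv : J → K → F)
    (hS : ∀ Ψ : MvPolynomial K F, Ψ ≠ 0 → ∃ j, MvPolynomial.eval (vv j) Ψ ≠ 0) :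
    ∃ U : Ultrafilter J, ∀ Ψ : MvPolynomial K F, Ψ ≠ 0 →
      ∀ᶠ j in (U : Filter J), MvPolynomial.eval (vv j) Ψ ≠ 0 := by
  classical
  obtain ⟨U, hU⟩ := Ultrafilter.exists_ultrafilter_of_finite_inter_nonempty
    {A : Set J | ∃ Ψ : MvPolynomial K F, Ψ ≠ 0 ∧ A = {j | MvPolynomial.eval (vv j) Ψ ≠ 0}} (by
    intro T hT
    have hT' : ∀ A ∈ T, ∃ Ψ : MvPolynomial K F, Ψ ≠ 0 ∧
      A = {j | MvPolynomial.eval (vv j) Ψ ≠ 0} := fun A hA => hT hA
    choose! Ψ hΨ0 hΨ using hT'
    obtain ⟨j, ha0⟩ := hS (∏ A ∈ T, Ψ A) (Finset.prod_ne_zero_iff.mpr hΨ0)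
    rw [map_prod, Finset.prod_ne_zero_iff] at ha0
    refine ⟨j, ?_⟩
    rw [Set.mem_sInter]
    intro A hA
    rw [hΨ A hA]
    exact ha0 A hA)
  exact ⟨U, fun Ψ hΨ => hU ⟨Ψ, hΨ, rfl⟩⟩

section

variable {d m : ℕ}

/-- the parameters of the same curve if `w_last = u w_0` -/
def dropV {R : Type u} [CommRing R] (u : R) (a : Fin (d + 1) × Fin (m + 3) → R)
    (q : Fin (d + 1) × Fin (m + 2)) : R :=
  a (q.1, q.2.castSucc) + if q.2 = 0 then u * a (q.1, Fin.last _) else 0

theorem dropV_zero {R : Type u} [CommRing R] (u : R) (a : Fin (d + 1) × Fin (m + 3) → R)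
    (i : Fin (d + 1)) : dropV u a (i, 0) = a (i, 0) + u * a (i, Fin.last _) := by
  unfold dropV
  rw [if_pos rfl]
  rfl

theorem dropV_of_ne {R : Type u} [CommRing R] (u : R) (a : Fin (d + 1) × Fin (m + 3) → R)
    (i : Fin (d + 1)) {e : Fin (m + 2)} (he : e ≠ 0) : dropV u a (i, e) = a (i, e.castSucc) := by
  unfold dropV
  rw [if_neg he, add_zero]

/-- the substitution -/
noncomputable def dropHom {F : Type u} [Field F] (d m : ℕ) (u : F) :
    MvPolynomial (Fin (d + 1) × Fin (m + 2)) F →ₐ[F] MvPolynomial (Fin (d + 1) × Fin (m + 3)) F :=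
  MvPolynomial.bind₁ (dropV (MvPolynomial.C u) MvPolynomial.X)

theorem dropHom_injective {F : Type u} [Field F] (u : F) :
    Function.Injective (dropHom d m u) := by
  classical
  have h1 : Function.LeftInverse (MvPolynomial.bind₁ fun q : Fin (d + 1) × Fin (m + 3) =>
      (Fin.lastCases (0 : MvPolynomial (Fin (d + 1) × Fin (m + 2)) F)
        (fun e => MvPolynomial.X (q.1, e)) q.2 : MvPolynomial (Fin (d + 1) × Fin (m + 2)) F))
      (dropHom d m u) := by
    intro Ψ
    unfold dropHom
    rw [MvPolynomial.bind₁_bind₁]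
    have h2 : (fun q : Fin (d + 1) × Fin (m + 2) =>
        (MvPolynomial.bind₁ fun q : Fin (d + 1) × Fin (m + 3) =>
        (Fin.lastCases (0 : MvPolynomial (Fin (d + 1) × Fin (m + 2)) F)
          (fun e => MvPolynomial.X (q.1, e)) q.2 : MvPolynomial (Fin (d + 1) × Fin (m + 2)) F))
        (dropV (MvPolynomial.C u) MvPolynomial.X q)) = MvPolynomial.X := by
      funext q
      unfold dropV
      rw [map_add, MvPolynomial.bind₁_X_right]
      have h3 : (MvPolynomial.bind₁ fun q : Fin (d + 1) × Fin (m + 3) =>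
        (Fin.lastCases (0 : MvPolynomial (Fin (d + 1) × Fin (m + 2)) F)
          (fun e => MvPolynomial.X (q.1, e)) q.2 : MvPolynomial (Fin (d + 1) × Fin (m + 2)) F))
          (if q.2 = 0 then MvPolynomial.C u * MvPolynomial.X (q.1, Fin.last (m + 2)) else 0) = 0 := by
        split_ifs
        · rw [map_mul, MvPolynomial.bind₁_X_right]
          simp
        · rw [map_zero]
      rw [h3, add_zero]
      simp
    rw [h2, MvPolynomial.bind₁_X_left]
    rfl
  exact h1.injective

theorem eval_dropHom {F : Type u} [Field F] (u : F) (b : Fin (d + 1) × Fin (m + 3) → F)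
    (Ψ : MvPolynomial (Fin (d + 1) × Fin (m + 2)) F) :
    MvPolynomial.eval b (dropHom d m u Ψ) = MvPolynomial.eval (dropV u b) Ψ := by
  unfold dropHom
  rw [MvPolynomial.eval, MvPolynomial.eval₂Hom_bind₁]
  congr 2
  funext q
  unfold dropV
  rw [map_add, MvPolynomial.eval₂Hom_X']
  congr 1
  split_ifs
  · rw [map_mul, MvPolynomial.eval₂Hom_C, MvPolynomial.eval₂Hom_X', RingHom.id_apply]
  · rw [map_zero]

/-- the curve does not change -/
theorem curveW_drop {F F₁ k : Type u} [Field F] [Field F₁] [Field k] [Algebra F k] [Algebra F F₁]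
    [Algebra F₁ k] [IsScalarTower F F₁ k] {w : Fin (m + 3) → k} {u : F₁}
    (hw : w (Fin.last _) = algebraMap F₁ k u * w 0) (a : Fin (d + 1) × Fin (m + 3) → F) :
    curveW (fun e : Fin (m + 2) => w e.castSucc) (dropV u fun q => algebraMap F F₁ (a q)) =
      curveW w a := by
  classical
  unfold curveW
  refine Finset.sum_congr rfl fun i _ => ?_
  congr 2
  rw [Fin.sum_univ_castSucc (n := m + 2)]
  have h1 : ∀ e : Fin (m + 2), algebraMap F₁ k (dropV u (fun q => algebraMap F F₁ (a q)) (i, e)) *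
      w e.castSucc = algebraMap F k (a (i, e.castSucc)) * w e.castSucc +
        if e = 0 then algebraMap F k (a (i, Fin.last _)) * w (Fin.last _) else 0 := by
    intro e
    by_cases he : e = 0
    · subst he
      rw [dropV_zero, if_pos rfl, map_add, map_mul, ← IsScalarTower.algebraMap_apply,
        ← IsScalarTower.algebraMap_apply, hw]
      have h2 : (0 : Fin (m + 2)).castSucc = 0 := rfl
      rw [h2]
      ring
    · rw [dropV_of_ne _ _ _ he, if_neg he, add_zero, ← IsScalarTower.algebraMap_apply]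
  rw [Finset.sum_congr rfl fun e _ => h1 e, Finset.sum_add_distrib, Finset.sum_ite_eq',
    if_pos (Finset.mem_univ _)]

end

section

variable {J : Type v} {U : Ultrafilter J} {C : Type u} [Field C] [CharZero C] [IsAlgClosed C]
  {S : Type w} [Field S] {π : (J → C) →+* S} (h : UP U π)

include h in
/-- **The algebraic functions of the parameters after the substitutions.** -/
theorem wr_drop {F F₁ : Type u} [Field F] [Field F₁] [Algebra F F₁] [Algebra F₁ C] [Algebra F C]
    [IsScalarTower F F₁ C] {Fh : Subfield C} (hFh : ∀ c : F, algebraMap F C c ∈ Fh) {u : F₁}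
    (hu : Transcendental Fh (algebraMap F₁ C u))
    (hF₁ : (algebraMap F₁ C).fieldRange = Subfield.closure ((Fh : Set C) ∪ {algebraMap F₁ C u}))
    {κ : Subfield C} (hκ : (algebraMap F₁ C).fieldRange ≤ κ) {d m : ℕ}
    {a : J → Fin (d + 1) × Fin (m + 3) → F}
    (hU : ∀ Ψ : MvPolynomial (Fin (d + 1) × Fin (m + 3)) F, Ψ ≠ 0 →
      ∀ᶠ j in (U : Filter J), MvPolynomial.eval (a j) Ψ ≠ 0)
    {o : Fin (m + 2)} (ho : o = 1) (n : ℕ) {y : S} (hy : y ∈ h.gsub (algebraMap F₁ C).fieldRange)
    (hya : IsAlgebraic (Lg (C := C) π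
      (fun j => subV o (n : F₁) (dropV u fun q => algebraMap F F₁ (a j q)))) y)
    (A : Subfield S) (hA : κ.map (UP.cst π) ≤ A) (hAcl : ∀ x : S, IsAlgebraic A x → x ∈ A)
    (hAx : ∀ (i : Fin (d + 1)) (e : Fin (m + 2)), e ≠ 0 →
        xg π (fun j i => algebraMap F₁ C
          (subV o (n : F₁) (dropV u fun q => algebraMap F F₁ (a j q)) i)) (i, e) ∈ A) :
    y ∈ Subfield.closure ((A : Set S) ∪ Set.range (xg π (fun j i => algebraMap F₁ C
          (subV o (n : F₁) (dropV u fun q => algebraMap F F₁ (a j q)) i)))) := by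
  classical
  subst ho
  set x' := xg π (fun j i => algebraMap F₁ C
    (subV 1 (n : F₁) (dropV u fun q => algebraMap F F₁ (a j q)) i)) with hx'
  let a' : Fin (d + 1) × Fin (m + 3) → S := xg π fun j q => algebraMap F C (a j q)
  have hcst : ∀ c : C, UP.cst π c = π fun _ => c := fun _ => rfl
  have h1 : y ∈ gn (acl (hi (κ.map (UP.cst π)) x')) x' := by
    refine wr h (le_refl Fh) hu (a' := a') (fun p => ?_) ?_ (c := UP.cst π (n : C)) ?_
      (hF₁ ▸ hκ) (fun i => ?_) (fun i e => ?_) (hF₁ ▸ hy) ?_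
    · exact ⟨_, fun j => hFh _, rfl⟩
    · have h2 : AlgebraicIndependent (UP.cst π).fieldRange a' :=
        algInd_xgC h (UL.gen_extend (C := C) hU)
      refine indep_mono ?_ h2
      rintro _ ⟨c, -, rfl⟩
      exact ⟨c, rfl⟩
    · exact ⟨_, _root_.natCast_mem Fh n, rfl⟩
    · rw [hx']
      change π _ = π _ + (π fun _ => (n : C)) * π _ + (π fun _ => algebraMap F₁ C u) * π _
      rw [← map_mul, ← map_mul, ← map_add, ← map_add]
      congr 1
      funext j
      change algebraMap F₁ C (subV 1 (n : F₁) (dropV u fun q => algebraMap F F₁ (a j q)) (i, 0)) =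
        algebraMap F C (a j (i, 0)) + (n : C) * algebraMap F C (a j (i, 1)) +
          algebraMap F₁ C u * algebraMap F C (a j (i, Fin.last _))
      unfold subV
      rw [if_pos rfl, dropV_zero, dropV_of_ne _ _ _ (by simp), map_add, map_add, map_mul, map_mul,
        map_natCast, ← IsScalarTower.algebraMap_apply, ← IsScalarTower.algebraMap_apply,
        ← IsScalarTower.algebraMap_apply]
      have h3 : (1 : Fin (m + 2)).castSucc = 1 := rfl
      rw [h3]
      ring
    · rw [hx']
      change π _ = π _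
      congr 1
      funext j
      change algebraMap F₁ C (subV 1 (n : F₁) (dropV u fun q => algebraMap F F₁ (a j q))
        (i, e.succ)) = algebraMap F C (a j (i, e.succ.castSucc))
      unfold subV
      rw [if_neg (Fin.succ_ne_zero e), dropV_of_ne _ _ _ (Fin.succ_ne_zero e),
        ← IsScalarTower.algebraMap_apply]
    · rw [← hF₁]
      refine isAlgebraic_mono ?_ hya
      unfold Lg
      rw [Subfield.closure_le, Set.union_subset_iff]
      refine ⟨?_, ?_⟩
      · rintro _ ⟨c, rfl⟩
        exact le_gn ⟨_, ⟨c, rfl⟩, rfl⟩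
      · rintro _ ⟨q, rfl⟩
        exact mem_gn q
  have h2 : acl (hi (κ.map (UP.cst π)) x') ≤ A := by
    intro z hz
    refine hAcl z (isAlgebraic_mono ?_ (mem_acl.1 hz))
    unfold hi
    rw [Subfield.closure_le, Set.union_subset_iff]
    refine ⟨hA, ?_⟩
    rintro _ ⟨⟨i, e⟩, rfl⟩
    exact hAx i e.succ (Fin.succ_ne_zero e)
  exact (gn_mono h2) h1

end

/-- **The reduction.** The exceptional parameters are in a hypersurface. -/
theorem closed_key {F k : Type u} [Field F] [CharZero F] [Field k] [Algebra F k]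
    (hF : ∃ S : Finset F, Subfield.closure (S : Set F) = ⊤)
    (hk : ∃ S : Finset k, Subfield.closure (S : Set k) = ⊤) {d m : ℕ} {w : Fin (m + 3) → k}
    (hw0 : w 0 ≠ 0) (hT : AlgebraicIndependent F ![w 1 / w 0, w (Fin.last _) / w 0])
    (hd : 3 ≤ d) {p ν : ℕ} (hp : 2 ≤ p) (hν1 : 1 ≤ ν) (hν : ν < p) (hpd : p ∣ d) :
    ∃ Ψ : MvPolynomial (Fin (d + 1) × Fin (m + 3)) F, Ψ ≠ 0 ∧
      ∀ a : Fin (d + 1) × Fin (m + 3) → F, (curveW w a).natDegree = d ∧ (curveW w a).Separable ∧
        SectionD p ν (curveW w a) → MvPolynomial.eval a Ψ = 0 := by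
  classical
  by_contra hcon
  push Not at hcon
  have hk0 : CharZero k := charZero_of_injective_algebraMap (algebraMap F k).injective
  let J : Type u := {a : Fin (d + 1) × Fin (m + 3) → F // (curveW w a).natDegree = d ∧
    (curveW w a).Separable ∧ SectionD p ν (curveW w a)}
  obtain ⟨U, hU⟩ := exists_ultra_dense (fun j : J => j.1) fun Ψ hΨ => by
    obtain ⟨a, ha, hne⟩ := hcon Ψ hΨ
    exact ⟨⟨a, ha⟩, hne⟩
  let C : Type u := AlgebraicClosure k
  have hC0 : CharZero C := charZero_of_injective_algebraMap (algebraMap k C).injective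
  obtain ⟨S, _, π, h⟩ := exists_up U C
  set T : k := w 1 / w 0 with hTdef
  set u : k := w (Fin.last _) / w 0 with hudef
  -- the fields
  let Fu : IntermediateField F k := adjoin F (Set.range ![u])
  have huFu : u ∈ Fu := subset_adjoin F _ ⟨0, rfl⟩
  have hFu := fg_adjoin hF ![u]
  have hFu0 : CharZero Fu := charZero_of_injective_algebraMap (algebraMap F Fu).injective
  have huT : AlgebraicIndependent F (Sum.elim ![T] ![u]) := by
    have h1 := hT.comp (Sum.elim (fun _ => 0) (fun _ => 1) : Fin 1 ⊕ Fin 1 → Fin 2) (by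
      rintro (a | a) (b | b) hab
      · rw [Subsingleton.elim a b]
      · simp at hab
      · simp at hab
      · rw [Subsingleton.elim a b])
    have h2 : ![T, u] ∘ (Sum.elim (fun _ => 0) (fun _ => 1) : Fin 1 ⊕ Fin 1 → Fin 2) =
        Sum.elim ![T] ![u] := by
      funext i
      rcases i with i | i <;> fin_cases i <;> rfl
    rwa [h2] at h1
  have hTu : Transcendental Fu T := by
    have h1 := (AlgebraicIndependent.sumElim_iff.1 huT).2
    have h2 : AlgebraicIndependent Fu ![T] := IntermediateField.algebraicIndependent_adjoin_iff.2 h1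
    exact h2.transcendental 0
  obtain ⟨n, s, hs, hTs, hfd⟩ := exists_tower hk hTu
  have hF₁ := fg_adjoin hFu s
  let F₁ : IntermediateField Fu k := adjoin Fu (Set.range s)
  have hF₁0 : CharZero F₁ := charZero_of_injective_algebraMap (algebraMap Fu F₁).injective
  let uF : F₁ := algebraMap Fu F₁ ⟨u, huFu⟩
  have huF : algebraMap F₁ k uF = u := rfl
  have hst : IsScalarTower F F₁ k := IsScalarTower.of_algebraMap_eq fun _ => rfl
  have hstC : IsScalarTower F F₁ C := IsScalarTower.of_algebraMap_eq fun _ => rfl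
  let Fs : IntermediateField F k := adjoin F (Set.range s)
  let Fh : Subfield C := Fs.toSubfield.map (algebraMap k C)
  -- `u` is transcendental over `F(s)`
  have husF : Transcendental Fs u := by
    have h1 : AlgebraicIndependent (Algebra.adjoin F (Set.range ![u])) s :=
      IntermediateField.algebraicIndependent_adjoin_iff.1 hs
    have h2 : AlgebraicIndependent F ![u] := (AlgebraicIndependent.sumElim_iff.1 huT).1
    have h3 : AlgebraicIndependent F (Sum.elim s ![u]) := AlgebraicIndependent.sumElim_iff.2 ⟨h2, h1⟩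
    have h4 : AlgebraicIndependent F (Sum.elim ![u] s) := by
      have h5 := h3.comp (Sum.swap : Fin 1 ⊕ Fin n → Fin n ⊕ Fin 1) Sum.swap_leftInverse.injective
      have h6 : Sum.elim s ![u] ∘ (Sum.swap : Fin 1 ⊕ Fin n → Fin n ⊕ Fin 1) = Sum.elim ![u] s := by
        funext i
        rcases i with i | i <;> rfl
      rwa [h6] at h5
    have h5 : AlgebraicIndependent Fs ![u] :=
      IntermediateField.algebraicIndependent_adjoin_iff.2 (AlgebraicIndependent.sumElim_iff.1 h4).2
    exact h5.transcendental 0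
  have hu : Transcendental Fh (algebraMap F₁ C uF) := by
    intro h0
    apply husF
    have hst' : algebraMap F₁ C uF = algebraMap k C u := IsScalarTower.algebraMap_apply F₁ k C uF
    rw [hst'] at h0
    let e₀ : Fs →+* Fh := ((algebraMap k C).comp (algebraMap Fs k)).codRestrict Fh.toSubring
      fun x => ⟨x, x.2, rfl⟩
    let e : Fs ≃+* Fh := RingEquiv.ofBijective e₀ ⟨e₀.injective, by
      rintro ⟨_, x, hx, rfl⟩
      exact ⟨⟨x, hx⟩, rfl⟩⟩
    refine (isAlgebraic_ringHom_iff_of_comp_eq e (algebraMap k C) (algebraMap k C).injective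
      (RingHom.ext fun _ => rfl)).1 h0
  -- the field `F₁` in `C`
  have hF₁C : (algebraMap F₁ C).fieldRange =
      Subfield.closure ((Fh : Set C) ∪ {algebraMap F₁ C uF}) := by
    apply le_antisymm
    · set B : Subfield k := (Subfield.closure ((Fh : Set C) ∪ {algebraMap F₁ C uF})).comap
        (algebraMap k C) with hB
      have hFB : ∀ x : k, x ∈ Fs → x ∈ B := fun x hx => Subfield.subset_closure (Or.inl ⟨x, hx, rfl⟩)
      have huB : u ∈ B := Subfield.subset_closure (Or.inr rfl)
      have h1 : Fu.toSubfield ≤ B := by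
        change (adjoin F (Set.range ![u])).toSubfield ≤ B
        rw [adjoin_toSubfield, Subfield.closure_le, Set.union_subset_iff]
        refine ⟨?_, ?_⟩
        · rintro _ ⟨c, rfl⟩
          exact hFB _ (Fs.algebraMap_mem c)
        · rintro _ ⟨i, rfl⟩
          fin_cases i
          exact huB
      have h2 : F₁.toSubfield ≤ B := by
        change (adjoin Fu (Set.range s)).toSubfield ≤ B
        rw [adjoin_toSubfield, Subfield.closure_le, Set.union_subset_iff]
        refine ⟨?_, ?_⟩
        · rintro _ ⟨c, rfl⟩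
          exact h1 c.2
        · rintro _ ⟨i, rfl⟩
          exact hFB _ (subset_adjoin F _ ⟨i, rfl⟩)
      rintro _ ⟨x, rfl⟩
      exact h2 x.2
    · rw [Subfield.closure_le, Set.union_subset_iff]
      refine ⟨?_, ?_⟩
      · rintro _ ⟨x, hx, rfl⟩
        have h1 : Fs.toSubfield ≤ F₁.toSubfield := by
          change (adjoin F (Set.range s)).toSubfield ≤ _
          rw [adjoin_toSubfield, Subfield.closure_le, Set.union_subset_iff]
          refine ⟨?_, ?_⟩
          · rintro _ ⟨c, rfl⟩
            exact F₁.algebraMap_mem (algebraMap F Fu c)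
          · rintro _ ⟨i, rfl⟩
            exact subset_adjoin Fu _ ⟨i, rfl⟩
        exact ⟨⟨x, h1 hx⟩, rfl⟩
      · rintro _ rfl
        exact ⟨uF, rfl⟩
  let κ : Subfield C := (algebraicClosure F₁ C).toSubfield
  have hκ : ∀ c : C, c ∈ κ ↔ IsAlgebraic F₁ c := fun c => mem_algebraicClosure_iff
  have hF₁κ : (algebraMap F₁ C).fieldRange ≤ κ := by
    rintro _ ⟨c, rfl⟩
    exact (hκ _).2 (isAlgebraic_algebraMap c)
  have hwl : w (Fin.last _) = algebraMap F₁ k uF * w 0 := by
    rw [huF, hudef, div_mul_cancel₀ _ hw0]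
  have hone : ((1 : Fin (m + 2)) : ℕ) = 1 := by simp
  have hfd' : FiniteDimensional (adjoin F₁ {w (1 : Fin (m + 2)).castSucc /
      w (0 : Fin (m + 2)).castSucc}) k := hfd
  refine key_any (F := F₁) (k := k) hF₁ hκ (w := fun e : Fin (m + 2) => w e.castSucc) hw0
    (o := 1) hone hTs hd hp hν1 hν hpd h
    (v₀ := fun j : J => dropV uF fun q => algebraMap F F₁ (j.1 q)) ?_ ?_ ?_
  · intro Ψ hΨ
    have h1 : dropHom d m uF Ψ ≠ 0 := fun h0 =>
      hΨ (dropHom_injective uF (by rw [h0, map_zero]))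
    filter_upwards [UL.gen_extend (C := F₁) hU _ h1] with j hj
    rw [← eval_dropHom]
    exact hj
  · intro n y hy hya A hA hAcl hAx
    exact wr_drop h (F := F) (F₁ := F₁) (Fh := Fh) (fun c => ⟨_, Fs.algebraMap_mem c, rfl⟩) hu hF₁C
      hF₁κ hU rfl n hy hya A hA hAcl hAx
  · intro j
    rw [curveW_drop hwl]
    exact j.2

end Pool.Agent.SLO
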